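import Pool.Agent.N898.BU.Stm

/-!
# The series over the prime squares and higher powers (task BU/QL of helper898; helper769)
-/

set_option autoImplicit false

namespace Pool.Agent.N769.BU

open Filter Topology Complex
open scoped ArithmeticFunction.vonMangoldt
open Pool.Agent.N210.FV

variable {S : Finset ℕ}

theorem two_le (p : PS S) : (2 : ℝ) ≤ (p : ℕ) := by exact_mod_cast p.2.1.two_le

noncomputable def r0 : ℝ := (2 : ℝ) ^ (-(1 / 2) : ℝ)

theorem r0_pos : 0 < r0 := by unfold r0; positivity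

theorem r0_lt : r0 < 1 := Real.rpow_lt_one_of_one_lt_of_neg (by norm_num) (by norm_num)

theorem q_le (p : PS S) {σ : ℝ} (hσ : 1 / 2 ≤ σ) : ((p : ℕ) : ℝ) ^ (-σ) ≤ r0 :=
  calc ((p : ℕ) : ℝ) ^ (-σ) ≤ ((p : ℕ) : ℝ) ^ (-(1 / 2) : ℝ) :=
        Real.rpow_le_rpow_of_exponent_le p.one_lt.le (by linarith)
    _ ≤ r0 := Real.rpow_le_rpow_of_nonpos (by norm_num) (two_le p) (by norm_num)

/-- the coefficient -/
noncomputable def cf (S : Finset ℕ) (i : PS S × ℕ) : ℝ := if i.2 = 0 then 0 else Real.log (i.1 : ℕ)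

theorem cf_nonneg (i : PS S × ℕ) : 0 ≤ cf S i := by
  unfold cf
  split_ifs
  · exact le_rfl
  · exact i.1.log_pos.le

theorem pow_q (p : PS S) (n : ℕ) (σ : ℝ) :
    ((p : ℕ) : ℝ) ^ (-(n * σ)) = (((p : ℕ) : ℝ) ^ (-σ)) ^ n := by
  rw [← Real.rpow_natCast, ← Real.rpow_mul p.pos.le]
  congr 1
  ring

theorem term_le (i : PS S × ℕ) {σ : ℝ} (hσ : 1 / 2 ≤ σ) :
    cf S i * Real.exp (-(oo S 1 i * σ)) ≤
      (Λ (i.1 : ℕ) * ((i.1 : ℕ) : ℝ) ^ (-(2 * σ))) * (r0⁻¹ * r0 ^ i.2) := by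
  obtain ⟨p, k⟩ := i
  have hl := p.log_pos
  have hr := r0_pos
  have hp := p.pos
  have hq0 : 0 < ((p : ℕ) : ℝ) ^ (-σ) := by positivity
  have hq := q_le p hσ
  have h2 := pow_q p 2 σ
  have h1 := pow_q p 1 σ
  push_cast at h2 h1
  rw [exp_oo, PS.lam]
  unfold cf
  simp only
  push_cast
  rw [h1, h2]
  rcases k with _ | k
  · simp only [if_true, zero_mul]
    positivity
  · rw [if_neg (by omega)]
    generalize ((p : ℕ) : ℝ) ^ (-σ) = q at hq0 hq
    have h3 : q ^ k ≤ r0 ^ k := pow_le_pow_left₀ hq0.le hq k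
    calc Real.log (p : ℕ) * (q ^ 1 * q ^ (k + 1)) = Real.log (p : ℕ) * q ^ 2 * q ^ k := by ring
      _ ≤ Real.log (p : ℕ) * q ^ 2 * r0 ^ k := by gcongr
      _ = Real.log (p : ℕ) * q ^ 2 * (r0⁻¹ * r0 ^ (k + 1)) := by
          have e : r0⁻¹ * r0 ^ (k + 1) = r0 ^ k := by
            rw [pow_succ]
            field_simp
          rw [e]

theorem summ_cf {σ : ℝ} (hσ : 1 / 2 < σ) :
    Summable fun i : PS S × ℕ => cf S i * Real.exp (-(oo S 1 i * σ)) := by
  have hr := r0_pos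
  refine Summable.of_nonneg_of_le (fun i => mul_nonneg (cf_nonneg i) (Real.exp_pos _).le)
    (fun i => term_le i hσ.le) ?_
  have h1 : Summable fun p : PS S => Λ (p : ℕ) * ((p : ℕ) : ℝ) ^ (-(2 * σ)) := summ_P (by linarith)
  have h2 : Summable fun k : ℕ => r0⁻¹ * r0 ^ k :=
    (summable_geometric_of_lt_one r0_pos.le r0_lt).mul_left _
  refine Summable.mul_of_nonneg h1 h2 (fun p => ?_) (fun k => by simp only [Pi.zero_apply]; positivity)
  have : 0 ≤ Λ (p : ℕ) := ArithmeticFunction.vonMangoldt_nonneg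
  have := p.pos
  simp only [Pi.zero_apply]
  positivity

theorem norm_term (i : PS S × ℕ) (s : ℂ) :
    ‖(cf S i : ℂ) * exp (-(oo S 1 i : ℂ) * s)‖ = cf S i * Real.exp (-(oo S 1 i * s.re)) := by
  rw [norm_mul, Complex.norm_exp, Complex.norm_real, Real.norm_of_nonneg (cf_nonneg i)]
  congr 2
  rw [neg_mul, neg_re, re_ofReal_mul]

/-- the second powers -/
noncomputable def T2 (S : Finset ℕ) (s : ℂ) : ℂ :=
  ∑' p : PS S, (Real.log (p : ℕ) : ℂ) * exp (-((2 * Real.log (p : ℕ) : ℝ) : ℂ) * s)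

/-- the third and higher powers of one prime -/
noncomputable def T3 (S : Finset ℕ) (s : ℂ) (p : PS S) : ℂ :=
  ∑' k : ℕ, (Real.log (p : ℕ) : ℂ) * exp (-((((k : ℝ) + 3) * Real.log (p : ℕ) : ℝ) : ℂ) * s)

theorem T3_le (p : PS S) {s : ℂ} (hs : 1 / 2 ≤ s.re) :
    ‖T3 S s p‖ ≤ (Λ (p : ℕ) * ((p : ℕ) : ℝ) ^ (-(3 / 2) : ℝ)) * (1 - r0)⁻¹ := by
  have hl := p.log_pos
  have hr := r0_pos
  have hp := p.pos
  refine tsum_of_norm_bounded (g := fun k : ℕ => (Λ (p : ℕ) * ((p : ℕ) : ℝ) ^ (-(3 / 2) : ℝ)) * r0 ^ k)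
    ((hasSum_geometric_of_lt_one r0_pos.le r0_lt).mul_left _) fun k => ?_
  rw [norm_mul, Complex.norm_exp, Complex.norm_real, Real.norm_of_nonneg hl.le, neg_mul, neg_re,
    re_ofReal_mul, PS.lam]
  have e1 : Real.exp (-(((k : ℝ) + 3) * Real.log (p : ℕ) * s.re)) =
      ((p : ℕ) : ℝ) ^ (-(3 * s.re)) * (((p : ℕ) : ℝ) ^ (-s.re)) ^ k := by
    rw [← Real.rpow_natCast, ← Real.rpow_mul hp.le, ← Real.rpow_add hp, Real.rpow_def_of_pos hp]
    congr 1
    ring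
  rw [e1]
  have h1 : ((p : ℕ) : ℝ) ^ (-(3 * s.re)) ≤ ((p : ℕ) : ℝ) ^ (-(3 / 2) : ℝ) :=
    Real.rpow_le_rpow_of_exponent_le p.one_lt.le (by linarith)
  have h2 : (((p : ℕ) : ℝ) ^ (-s.re)) ^ k ≤ r0 ^ k :=
    pow_le_pow_left₀ (by positivity) (q_le p hs) k
  calc Real.log (p : ℕ) * (((p : ℕ) : ℝ) ^ (-(3 * s.re)) * (((p : ℕ) : ℝ) ^ (-s.re)) ^ k)
      ≤ Real.log (p : ℕ) * (((p : ℕ) : ℝ) ^ (-(3 / 2) : ℝ) * r0 ^ k) := by gcongr
    _ = _ := by ring

theorem split {s : ℂ} (hs : 1 / 2 < s.re) :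
    Ds (fun i : PS S × ℕ => (cf S i : ℂ)) (oo S 1) s = T2 S s + ∑' p : PS S, T3 S s p := by
  have h1 : Summable fun i : PS S × ℕ => (cf S i : ℂ) * exp (-(oo S 1 i : ℂ) * s) := by
    refine Summable.of_norm ?_
    simp_rw [norm_term]
    exact summ_cf hs
  have hf : ∀ p : PS S, Summable fun k : ℕ => (cf S (p, k) : ℂ) * exp (-(oo S 1 (p, k) : ℂ) * s) :=
    fun p => h1.prod_factor p
  unfold Ds
  rw [h1.tsum_prod]
  have e : ∀ p : PS S, ∑' k : ℕ, (cf S (p, k) : ℂ) * exp (-(oo S 1 (p, k) : ℂ) * s) =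
      (Real.log (p : ℕ) : ℂ) * exp (-((2 * Real.log (p : ℕ) : ℝ) : ℂ) * s) + T3 S s p := by
    intro p
    have hf1 := (summable_nat_add_iff 1).2 (hf p)
    rw [(hf p).tsum_eq_zero_add, hf1.tsum_eq_zero_add]
    have e0 : cf S (p, 0) = 0 := by simp [cf]
    rw [e0, ofReal_zero, zero_mul, zero_add]
    congr 1
    · have e1 : cf S (p, 0 + 1) = Real.log (p : ℕ) := by simp [cf]
      have e2 : oo S 1 (p, 0 + 1) = 2 * Real.log (p : ℕ) := by
        unfold oo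
        push_cast
        ring
      rw [e1, e2]
    · unfold T3
      refine tsum_congr fun k => ?_
      have e1 : cf S (p, k + 1 + 1) = Real.log (p : ℕ) := by simp [cf]
      have e2 : oo S 1 (p, k + 1 + 1) = ((k : ℝ) + 3) * Real.log (p : ℕ) := by
        unfold oo
        push_cast
        ring
      rw [e1, e2]
  simp_rw [e]
  unfold T2
  refine Summable.tsum_add ?_ ?_
  · refine Summable.of_norm ?_
    have h2 : Summable fun p : PS S => Λ (p : ℕ) * ((p : ℕ) : ℝ) ^ (-(2 * s.re)) :=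
      summ_P (by linarith)
    refine h2.congr fun p => ?_
    rw [norm_mul, Complex.norm_exp, Complex.norm_real, Real.norm_of_nonneg p.log_pos.le, neg_mul,
      neg_re, re_ofReal_mul, PS.lam, Real.rpow_def_of_pos p.pos]
    congr 2
    ring
  · refine Summable.of_norm_bounded (((summ_P (S := S) (x := 3 / 2) (by norm_num)).mul_right
      ((1 - r0)⁻¹))) fun p => ?_
    exact T3_le p hs.le

theorem T3_tsum_le {s : ℂ} (hs : 1 / 2 ≤ s.re) :
    ‖∑' p : PS S, T3 S s p‖ ≤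
      ∑' p : PS S, (Λ (p : ℕ) * ((p : ℕ) : ℝ) ^ (-(3 / 2) : ℝ)) * (1 - r0)⁻¹ := by
  refine tsum_of_norm_bounded (Summable.hasSum
    (((summ_P (S := S) (x := 3 / 2) (by norm_num)).mul_right _))) fun p => ?_
  exact T3_le p hs

/-- the comparison with the full series -/
theorem T2_sub {s : ℂ} (hs : 1 / 2 < s.re) :
    ‖VL (2 * s) - T2 S s‖ ≤ ∑' n : ℕ, rr S n / n := by
  classical
  have hre : (2 * s).re = 2 * s.re := by simp
  have hL : LSeriesSummable (fun n => (Λ n : ℂ)) (2 * s) :=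
    ArithmeticFunction.LSeriesSummable_vonMangoldt (by rw [hre]; linarith)
  have h2 : Summable fun n : ℕ => LSeries.term (fun n => (Λ n : ℂ)) (2 * s) n := hL
  have h1 : T2 S s = ∑' n : ℕ, Set.indicator {p : ℕ | p.Prime ∧ p ∉ S}
      (fun n : ℕ => LSeries.term (fun n => (Λ n : ℂ)) (2 * s) n) n := by
    rw [← tsum_subtype {p : ℕ | p.Prime ∧ p ∉ S}
      (fun n : ℕ => LSeries.term (fun n => (Λ n : ℂ)) (2 * s) n)]
    unfold T2
    refine tsum_congr fun p => ?_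
    have hp := p.pos
    have hpc : ((p : ℕ) : ℂ) ≠ 0 := by exact_mod_cast hp.ne'
    rw [LSeries.term_of_ne_zero p.2.1.ne_zero, PS.lam, div_eq_mul_inv, ← cpow_neg,
      cpow_def_of_ne_zero hpc, ← Complex.natCast_log]
    congr 2
    push_cast
    ring
  have h3 : Summable (Set.indicator {p : ℕ | p.Prime ∧ p ∉ S}
      (fun n : ℕ => LSeries.term (fun n => (Λ n : ℂ)) (2 * s) n)) := h2.indicator _
  rw [h1]
  unfold VL LSeries
  rw [← h2.tsum_sub h3]
  refine tsum_of_norm_bounded (rr_summ S).hasSum fun n => ?_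
  rw [Set.indicator_apply]
  unfold rr
  simp only [Set.mem_ofPred_eq]
  split_ifs with h
  · simp
  · rw [sub_zero, LSeries.norm_term_eq]
    split_ifs with h0
    · exact div_nonneg ArithmeticFunction.vonMangoldt_nonneg (Nat.cast_nonneg n)
    · rw [Complex.norm_real, Real.norm_of_nonneg ArithmeticFunction.vonMangoldt_nonneg, hre]
      have hn : (1 : ℝ) ≤ n := by exact_mod_cast Nat.one_le_iff_ne_zero.2 h0
      refine div_le_div_of_nonneg_left ArithmeticFunction.vonMangoldt_nonneg (by linarith) ?_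
      calc (n : ℝ) = (n : ℝ) ^ (1 : ℝ) := (Real.rpow_one _).symm
        _ ≤ (n : ℝ) ^ (2 * s.re) := Real.rpow_le_rpow_of_exponent_le hn (by linarith)

theorem small (G : ℝ → ℂ) (K : ℝ) (h : ∀ δ : ℝ, 0 < δ → ‖G δ‖ ≤ K) :
    Tendsto (fun δ : ℝ => (δ : ℂ) * G δ) (𝓝[>] 0) (𝓝 0) := by
  have h3 := delta_tendsto.mul_const K
  rw [zero_mul] at h3
  refine squeeze_zero_norm' ?_ h3
  filter_upwards [self_mem_nhdsWithin] with δ hδ
  have hδ : (0 : ℝ) < δ := hδ
  rw [norm_mul, Complex.norm_real, Real.norm_of_nonneg hδ.le]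
  exact mul_le_mul_of_nonneg_left (h δ hδ) hδ.le

theorem main_QL : Pool.Agent.N898.BU.S_QL := by
  intro S
  refine ⟨fun σ hσ => ?_, fun τ => ?_⟩
  · have h := summ_cf (S := S) hσ
    refine h.congr fun i => ?_
    unfold cf
    rw [mul_comm (oo S 1 i)]
  · show Tendsto (fun δ : ℝ => (δ : ℂ) * Ds (fun i : PS S × ℕ => (cf S i : ℂ)) (oo S 1)
      (1 / 2 + δ + τ * I)) (𝓝[>] 0) (𝓝 (if τ = 0 then 1 / 2 else 0))
    have h1 := VL_lim (2 * τ)
    have hif : (if 2 * τ = 0 then (1 / 2 : ℂ) else 0) = if τ = 0 then 1 / 2 else 0 := by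
      by_cases h : τ = 0 <;> simp [h]
    rw [hif] at h1
    have hre : ∀ δ : ℝ, ((1 / 2 : ℂ) + δ + τ * I).re = 1 / 2 + δ := by
      intro δ
      simp
    have h2 := small (fun δ : ℝ => VL (2 * (1 / 2 + δ + τ * I)) - T2 S (1 / 2 + δ + τ * I)) _
      fun δ hδ => T2_sub (S := S) (s := 1 / 2 + δ + τ * I) (by rw [hre]; linarith)
    have h3 := small (fun δ : ℝ => ∑' p : PS S, T3 S (1 / 2 + δ + τ * I) p) _
      fun δ hδ => T3_tsum_le (S := S) (s := 1 / 2 + δ + τ * I) (by rw [hre]; linarith)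
    have h4 := (h1.sub h2).add h3
    rw [sub_zero, add_zero] at h4
    refine h4.congr' ?_
    filter_upwards [self_mem_nhdsWithin] with δ hδ
    have hδ : (0 : ℝ) < δ := hδ
    rw [split (S := S) (s := 1 / 2 + δ + τ * I) (by rw [hre]; linarith)]
    have e : (1 + 2 * (δ : ℂ) + ((2 * τ : ℝ) : ℂ) * I) = 2 * (1 / 2 + δ + τ * I) := by
      push_cast
      ring
    rw [e]
    ring

end Pool.Agent.N769.BU
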