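import Pool.Agent.N898.BU.Stm2

/-!
# The Euler product of the zeta function without the primes of `S` (task BU/ZE of helper898; helper769)
-/

set_option autoImplicit false

namespace Pool.Agent.N769.BU

open Filter Topology Complex
open Pool.Agent.N210.FV Pool.Agent.N898.BU
open scoped ComplexConjugate

theorem ef_lz (S : Finset ℕ) (s : ℂ) :
    ef (lz S) s = ∏ p ∈ S.filter Nat.Prime, (1 - (p : ℂ) ^ (-s)) := by
  unfold ef lz
  rw [List.map_map, Finset.prod_map_toList]
  refine Finset.prod_congr rfl fun p _ => ?_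
  simp

theorem fac_ne {p : ℕ} (hp : p.Prime) {s : ℂ} (hs : 1 < s.re) : (1 : ℂ) - (p : ℂ) ^ (-s) ≠ 0 := by
  have hp1 : (1 : ℝ) < p := by exact_mod_cast hp.one_lt
  refine one_sub_ne (ne_of_lt ?_)
  rw [← ofReal_natCast, Complex.norm_cpow_eq_rpow_re_of_pos (by linarith), neg_re]
  exact Real.rpow_lt_one_of_one_lt_of_neg hp1 (by linarith)

theorem main_ZE : S_ZE := by
  classical
  intro S s hs
  have h1 := (riemannZeta_eulerProduct hs).mul_const (ef (lz S) s)
  have hs1 : s ≠ 1 := by
    rintro rfl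
    simp at hs
  have e : riemannZeta s * ef (lz S) s = riemannZeta₁ s * ef (lz S) s / (s - 1) := by
    rw [riemannZeta_eq_inv_sub_mul hs1]
    ring
  rw [e] at h1
  refine h1.congr' ?_
  filter_upwards [eventually_gt_atTop (S.sup id)] with X hX
  have h4 : X.primesBelow =
      (Finset.range X).filter (fun p => p.Prime ∧ p ∉ S) ∪ S.filter Nat.Prime := by
    ext p
    simp only [Nat.mem_primesBelow, Finset.mem_filter, Finset.mem_range, Finset.mem_union]
    constructor
    · rintro ⟨a, b⟩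
      by_cases hp : p ∈ S
      · exact Or.inr ⟨hp, b⟩
      · exact Or.inl ⟨a, b, hp⟩
    · rintro (⟨a, b, c⟩ | ⟨a, b⟩)
      · exact ⟨a, b⟩
      · exact ⟨lt_of_le_of_lt (Finset.le_sup (f := id) a) hX, b⟩
  have h5 : Disjoint ((Finset.range X).filter (fun p => p.Prime ∧ p ∉ S)) (S.filter Nat.Prime) := by
    rw [Finset.disjoint_left]
    intro p hp hp2
    simp only [Finset.mem_filter] at hp hp2
    exact hp.2.2 hp2.1
  rw [h4, Finset.prod_union h5, ef_lz, mul_assoc, ← Finset.prod_mul_distrib]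
  have h6 : ∏ p ∈ S.filter Nat.Prime, ((1 - (p : ℂ) ^ (-s))⁻¹ * (1 - (p : ℂ) ^ (-s))) = 1 :=
    Finset.prod_eq_one fun p hp => inv_mul_cancel₀ (fac_ne (Finset.mem_filter.1 hp).2 hs)
  rw [h6, mul_one]
  refine Finset.prod_congr rfl fun p _ => ?_
  simp

end Pool.Agent.N769.BU
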